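import Pool.Agent.Lib_helper59.Lang.Orbit

/-!
# MP_45e720_ag: Lang's problem for the Fermat covers of every projective variety

`fermatCover m S` is the set of all points `[z_0 : ... : z_n]` of complex projective space such
that `F(z_0 ^ m, ..., z_n ^ m) = 0` for all `F` in the set `S` of homogeneous polynomials, that is
the preimage of the projective variety `Y = V(S)` under the map `[z_i] ↦ [z_i ^ m]`, a ramified
cover of `Y` with group `(Z/m)^n`.

The theorem: for every `S` there are finitely many subtori `T_1, ..., T_r` of the diagonal torus
(given by saturated groups of characters) such that, if every `F ∈ S` has at most `k` monomials and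
`m > k (k - 2)`, and also for every `m ≥ m₀(S)`, the set `X = fermatCover m S` has the following
properties:
* every entire curve in `X` lies, apart from a discrete set of its points, in one orbit `T_j p`
  with `T_j p ⊆ X`;
* every nonconstant entire curve in `X` lies, apart from a discrete set of its points, in the union
  of nonconstant orbits of one one-parameter group of diagonal matrices that are contained in `X`
  (the closures of these orbits are rational curves);
* the following are equivalent: `X` is Brody hyperbolic; every holomorphic map from a complex torus
  to `X` is constant; `X` contains no rational curve; every orbit of one of the `T_j` contained in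
  `X` is a point; `X` contains no nonconstant orbit of a one-parameter group of diagonal matrices.
The proof is by Cartan's second main theorem with truncated counting functions, proved here from
Jensen's formula and a logarithmic derivative estimate.
-/

namespace Pool.Agent.Lib_helper59.Superseded.FermatCovers

open LangFC

theorem result {n : ℕ} (S : Set (MvPolynomial (Fin (n + 1)) ℂ))
    (hS : ∀ F ∈ S, ∃ d, F.IsHomogeneous d) :
    ∃ T : Set (AddSubgroup (Fin (n + 1) → ℤ)), T.Finite ∧ (∀ R ∈ T, Saturated R) ∧
      (∀ k m : ℕ, (∀ F ∈ S, F.support.card ≤ k) → k * (k - 2) < m →
        StrongLang T (fermatCover m S)) ∧
      ∃ m₀ : ℕ, ∀ m, m₀ ≤ m → StrongLang T (fermatCover m S) :=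
  main_thm S hS

end Pool.Agent.Lib_helper59.Superseded.FermatCovers
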