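import Pool.Agent.Lib_helper92.HCF.FIF

set_option autoImplicit false

namespace Pool.Agent.Results.MP_5dd4bb_nt.HighConductorVariance

/-- The variance of the primes up to `X` in the reduced residue classes modulo `Q`. -/
noncomputable def G (X : ℝ) (Q : ℕ) : ℝ :=
  ∑ a ∈ (Finset.range Q).filter (fun a => Nat.Coprime a Q),
    ((∑ n ∈ (Finset.Icc 1 ⌊X⌋₊).filter (fun n => n % Q = a), ArithmeticFunction.vonMangoldt n)
      - X / (Nat.totient Q : ℝ)) ^ 2

open scoped Classical in
/-- The part of the variance which is carried by the characters modulo `Q` of conductor at most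
`(X / Q) (log X) ^ 8`. -/
noncomputable def L (X : ℝ) (Q : ℕ) : ℝ :=
  (1 / (Nat.totient Q : ℝ)) * ∑ χ : DirichletCharacter ℂ Q,
    if (χ.conductor : ℝ) ≤ X / Q * Real.log X ^ 8 then
      ‖∑ n ∈ Finset.Icc 1 ⌊X⌋₊, ((ArithmeticFunction.vonMangoldt n : ℝ) : ℂ) * χ (n : ZMod Q)
        - (if χ = 1 then (X : ℂ) else 0)‖ ^ 2 else 0

/-- Upper half of the Friedlander-Goldston asymptotic, with the second order term, and a two-sided
estimate, for the variance without the characters of small conductor, in mean over all moduli. -/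
theorem result :
    ∀ η : ℝ, 0 < η → ∃ C : ℝ, ∀ (X : ℝ) (Y : ℕ), C ≤ X →
      Real.sqrt X * Real.log X ^ 12 ≤ (Y : ℝ) → C * (Y : ℝ) ≤ X →
      (∑ Q ∈ Finset.Icc 1 Y, (G X Q - L X Q - X * (Real.log Q -
          (Real.eulerMascheroniConstant + Real.log (2 * Real.pi)
            + ∑ p ∈ Q.primeFactors, Real.log (p : ℝ) / ((p : ℝ) - 1)))) ≤ η * X * Y) ∧
      (∑ Q ∈ Finset.Icc 1 Y, |G X Q - L X Q - X * Real.log Q| ≤
        (6 * Real.log (X / Y) + η * Real.log X) * X * Y) :=
  fun η hη => Pool.Agent.HC.fin η hη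

end Pool.Agent.Results.MP_5dd4bb_nt.HighConductorVariance
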